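import Mathlib
import Pool.Agent.Helper4.QN.Defs

/-! Statements of the pieces of project QN (MP_882a21_co, `(2+ε)d` members). Proofs go to
`Pool/Agent/<Seat>/QN/*.lean`; this file is only for type checking. -/

set_option autoImplicit false

namespace Pool.Agent.Helper4.QN.St

open scoped BigOperators RealInnerProductSpace
open Pool.Agent.Helper4.QN

/-- QN-1 (minimiser for a fixed list). -/
theorem exists_min {d n : ℕ} {I : Type} [Fintype I]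
    (a : I → EuclideanSpace ℝ (Fin d)) (b : I → ℝ) (R : ℝ)
    (hbdd : ∀ x : EuclideanSpace ℝ (Fin d), (∀ i, ⟪a i, x⟫ ≤ b i) → ‖x‖ ≤ R)
    (x₀ : EuclideanSpace ℝ (Fin d)) (hint : ∀ i, ⟪a i, x₀⟫ < b i) (t : Fin n → I)
    (ht : 0 < (gm (fun _ => 1) (fun j => a (t j))).det) :
    ∃ (o : EuclideanSpace ℝ (Fin d))
      (A : EuclideanSpace ℝ (Fin d) →L[ℝ] EuclideanSpace ℝ (Fin d)),
      (∀ i, ⟪a i, o⟫ + ‖A (a i)‖ ≤ b i) ∧ (∀ i, ⟪a i, o⟫ < b i) ∧ 0 < A.det ∧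
      ∀ (o' : EuclideanSpace ℝ (Fin d))
        (A' : EuclideanSpace ℝ (Fin d) →L[ℝ] EuclideanSpace ℝ (Fin d)),
        (∀ i, ⟪a i, o'⟫ + ‖A' (a i)‖ ≤ b i) → 0 < A'.det →
        Real.log (gm (fun j => ((b (t j) - ⟪a (t j), o⟫) ^ 2)⁻¹) (fun j => a (t j))).det -
            2 * Real.log A.det ≤
          Real.log (gm (fun j => ((b (t j) - ⟪a (t j), o'⟫) ^ 2)⁻¹) (fun j => a (t j))).det -
            2 * Real.log A'.det := by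
  sorry

/-- QN-2 (the best list). -/
theorem exists_best {d : ℕ} (hd : 0 < d) {I : Type} [Fintype I]
    (a : I → EuclideanSpace ℝ (Fin d)) (b : I → ℝ) (R : ℝ)
    (hbdd : ∀ x : EuclideanSpace ℝ (Fin d), (∀ i, ⟪a i, x⟫ ≤ b i) → ‖x‖ ≤ R)
    (x₀ : EuclideanSpace ℝ (Fin d)) (hint : ∀ i, ⟪a i, x₀⟫ < b i) (α : ℝ) (hα : 1 < α) :
    ∃ (n : ℕ) (t : Fin n → I) (o : EuclideanSpace ℝ (Fin d))
      (A : EuclideanSpace ℝ (Fin d) →L[ℝ] EuclideanSpace ℝ (Fin d)),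
      0 < (gm (fun _ => 1) (fun j => a (t j))).det ∧
      (∀ i, ⟪a i, o⟫ + ‖A (a i)‖ ≤ b i) ∧ (∀ i, ⟪a i, o⟫ < b i) ∧ 0 < A.det ∧
      (∀ (o' : EuclideanSpace ℝ (Fin d))
        (A' : EuclideanSpace ℝ (Fin d) →L[ℝ] EuclideanSpace ℝ (Fin d)),
        (∀ i, ⟪a i, o'⟫ + ‖A' (a i)‖ ≤ b i) → 0 < A'.det →
        Real.log (gm (fun j => ((b (t j) - ⟪a (t j), o⟫) ^ 2)⁻¹) (fun j => a (t j))).det -
            2 * Real.log A.det ≤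
          Real.log (gm (fun j => ((b (t j) - ⟪a (t j), o'⟫) ^ 2)⁻¹) (fun j => a (t j))).det -
            2 * Real.log A'.det) ∧
      (∀ (n' : ℕ) (t' : Fin n' → I), 0 < (gm (fun _ => 1) (fun j => a (t' j))).det →
        ∃ (o' : EuclideanSpace ℝ (Fin d))
          (A' : EuclideanSpace ℝ (Fin d) →L[ℝ] EuclideanSpace ℝ (Fin d)),
          (∀ i, ⟪a i, o'⟫ + ‖A' (a i)‖ ≤ b i) ∧ (∀ i, ⟪a i, o'⟫ < b i) ∧ 0 < A'.det ∧
          Real.log (gm (fun j => ((b (t' j) - ⟪a (t' j), o'⟫) ^ 2)⁻¹)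
              (fun j => a (t' j))).det - 2 * Real.log A'.det - n' * Real.log α ≤
            Real.log (gm (fun j => ((b (t j) - ⟪a (t j), o⟫) ^ 2)⁻¹) (fun j => a (t j))).det -
              2 * Real.log A.det - n * Real.log α) := by
  sorry

/-- QN-3 (normal form). -/
theorem normal_form {d : ℕ} (hd : 0 < d) {I : Type} [Fintype I]
    (a : I → EuclideanSpace ℝ (Fin d)) (b : I → ℝ) (R : ℝ)
    (hbdd : ∀ x : EuclideanSpace ℝ (Fin d), (∀ i, ⟪a i, x⟫ ≤ b i) → ‖x‖ ≤ R)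
    (x₀ : EuclideanSpace ℝ (Fin d)) (hint : ∀ i, ⟪a i, x₀⟫ < b i) (α : ℝ) (hα : 1 < α) :
    ∃ (o : EuclideanSpace ℝ (Fin d))
      (A : EuclideanSpace ℝ (Fin d) →L[ℝ] EuclideanSpace ℝ (Fin d)) (u : I → EuclideanSpace ℝ (Fin d))
      (n : ℕ) (t : Fin n → I),
      (∀ i, ⟪a i, o⟫ < b i) ∧ 0 < A.det ∧ (∀ i, u i = (b i - ⟪a i, o⟫)⁻¹ • A (a i)) ∧
      (∀ i, ‖u i‖ ≤ 1) ∧ 0 < (gm (fun _ => 1) (fun j => u (t j))).det ∧
      (∀ (x : EuclideanSpace ℝ (Fin d))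
        (Q : EuclideanSpace ℝ (Fin d) →L[ℝ] EuclideanSpace ℝ (Fin d)),
        (∀ i, ⟪u i, x⟫ + ‖Q (u i)‖ ≤ 1) → 0 < Q.det →
        Real.log (gm (fun _ => 1) (fun j => u (t j))).det ≤
          Real.log (gx (fun j => u (t j)) x).det - 2 * Real.log Q.det) ∧
      (∀ (n' : ℕ) (t' : Fin n' → I), 0 < (gm (fun _ => 1) (fun j => u (t' j))).det →
        ∃ (x : EuclideanSpace ℝ (Fin d))
          (Q : EuclideanSpace ℝ (Fin d) →L[ℝ] EuclideanSpace ℝ (Fin d)),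
          (∀ i, ⟪u i, x⟫ + ‖Q (u i)‖ ≤ 1) ∧ (∀ i, ⟪u i, x⟫ < 1) ∧ 0 < Q.det ∧
          Real.log (gx (fun j => u (t' j)) x).det - 2 * Real.log Q.det - n' * Real.log α ≤
            Real.log (gm (fun _ => 1) (fun j => u (t j))).det - n * Real.log α) := by
  sorry

/-- QN-4 (tangent inequality for log det). -/
theorem logdet_le {d n : ℕ} (v : Fin n → EuclideanSpace ℝ (Fin d))
    (hM : 0 < (gm (fun _ => 1) v).det) (w : Fin n → ℝ) (hw : ∀ j, 0 < w j) :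
    0 < (gm w v).det ∧
    Real.log (gm w v).det ≤ Real.log (gm (fun _ => 1) v).det +
      ∑ j, (w j - 1) * bi (gm (fun _ => 1) v) (v j) (v j) := by
  sorry

/-- QN-5 (weighted determinant, lower bound). -/
theorem logdet_ge {d n : ℕ} (v : Fin n → EuclideanSpace ℝ (Fin d))
    (hM : 0 < (gm (fun _ => 1) v).det) (w : Fin n → ℝ) (hw : ∀ j, 0 < w j) :
    Real.log (gm (fun _ => 1) v).det +
        ∑ j, bi (gm (fun _ => 1) v) (v j) (v j) * Real.log (w j) ≤ Real.log (gm w v).det := by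
  sorry

/-- QN-6 (leverage scores). -/
theorem leverage {d n : ℕ} (v : Fin n → EuclideanSpace ℝ (Fin d))
    (hM : 0 < (gm (fun _ => 1) v).det) :
    ∑ j, bi (gm (fun _ => 1) v) (v j) (v j) = d ∧
    (∀ j, 0 ≤ bi (gm (fun _ => 1) v) (v j) (v j) ∧ bi (gm (fun _ => 1) v) (v j) (v j) ≤ 1) ∧
    (∀ x y, bi (gm (fun _ => 1) v) x y = bi (gm (fun _ => 1) v) y x) ∧
    (∀ x, 0 ≤ bi (gm (fun _ => 1) v) x x) ∧
    (∀ x, ∑ j, bi (gm (fun _ => 1) v) (v j) x ^ 2 = bi (gm (fun _ => 1) v) x x) ∧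
    (∀ x y, ⟪x, y⟫ ^ 2 ≤ bi (gm (fun _ => 1) v) x x * ∑ j, ⟪v j, y⟫ ^ 2) ∧
    (∀ x y, ⟪x, y⟫ = ∑ j, bi (gm (fun _ => 1) v) (v j) x * ⟪v j, y⟫) := by
  sorry

/-- QN-7 (adding a vector). -/
theorem add_vec {d n : ℕ} (v : Fin n → EuclideanSpace ℝ (Fin d))
    (hM : 0 < (gm (fun _ => 1) v).det) (a : EuclideanSpace ℝ (Fin d)) :
    (gm (fun _ => 1) (Fin.cons a v : Fin (n + 1) → EuclideanSpace ℝ (Fin d))).det =
      (gm (fun _ => 1) v).det * (1 + bi (gm (fun _ => 1) v) a a) ∧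
    ∀ x, bi (gm (fun _ => 1) (Fin.cons a v : Fin (n + 1) → EuclideanSpace ℝ (Fin d))) x x =
      bi (gm (fun _ => 1) v) x x -
        bi (gm (fun _ => 1) v) x a ^ 2 / (1 + bi (gm (fun _ => 1) v) a a) := by
  sorry

/-- QN-8 (removing a vector). -/
theorem rem_vec {d n : ℕ} (v : Fin (n + 1) → EuclideanSpace ℝ (Fin d))
    (hM : 0 < (gm (fun _ => 1) v).det) (j : Fin (n + 1))
    (hj : bi (gm (fun _ => 1) v) (v j) (v j) < 1) :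
    (gm (fun _ => 1) (fun i => v (j.succAbove i))).det =
      (gm (fun _ => 1) v).det * (1 - bi (gm (fun _ => 1) v) (v j) (v j)) ∧
    ∀ x, bi (gm (fun _ => 1) (fun i => v (j.succAbove i))) x x =
      bi (gm (fun _ => 1) v) x x +
        bi (gm (fun _ => 1) v) x (v j) ^ 2 / (1 - bi (gm (fun _ => 1) v) (v j) (v j)) := by
  sorry

/-- QN-9 (first order conditions at the normalised minimiser `(0, id)`). -/
theorem kkt {d n : ℕ} (hd : 0 < d) {I : Type} [Fintype I] (u : I → EuclideanSpace ℝ (Fin d))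
    (hu : ∀ i, ‖u i‖ ≤ 1) (t : Fin n → I) (hM : 0 < (gm (fun _ => 1) (fun j => u (t j))).det)
    (hmin : ∀ (x : EuclideanSpace ℝ (Fin d))
        (Q : EuclideanSpace ℝ (Fin d) →L[ℝ] EuclideanSpace ℝ (Fin d)),
        (∀ i, ⟪u i, x⟫ + ‖Q (u i)‖ ≤ 1) → 0 < Q.det →
        Real.log (gm (fun _ => 1) (fun j => u (t j))).det ≤
          Real.log (gx (fun j => u (t j)) x).det - 2 * Real.log Q.det) :
    ∃ c : I → ℝ, (∀ i, 0 ≤ c i) ∧ (∀ i, c i ≠ 0 → ‖u i‖ = 1) ∧ ∑ i, c i = d ∧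
      ∑ i, c i • u i =
        -∑ j, bi (gm (fun _ => 1) (fun j => u (t j))) (u (t j)) (u (t j)) • u (t j) ∧
      ∀ w : EuclideanSpace ℝ (Fin d), ∑ i, c i * ⟪u i, w⟫ ^ 2 = ‖w‖ ^ 2 := by
  sorry

/-- QN-10 (centred measure). -/
theorem centred {d : ℕ} (hd : 0 < d) {I : Type} [Fintype I] (v : I → EuclideanSpace ℝ (Fin d))
    (D : ℝ)
    (hD : ∀ x y : EuclideanSpace ℝ (Fin d), (∀ i, ⟪v i, x⟫ ≤ 1) → (∀ i, ⟪v i, y⟫ ≤ 1) →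
      ‖x - y‖ ≤ D) :
    0 < D ∧ ∃ ν : I → ℝ, (∀ i, 0 ≤ ν i) ∧ ∑ i, ν i = 1 ∧ ∑ i, ν i • v i = 0 ∧
      ∀ y : EuclideanSpace ℝ (Fin d), ‖y‖ ≤ 2 * D * √d * ∑ i, ν i * |⟪v i, y⟫| := by
  sorry

/-- QN-11 (halving with a frame). -/
theorem halve {d n N : ℕ} (hn : 0 < n) (hN : 0 < N) (t : Fin n → EuclideanSpace ℝ (Fin d))
    (hM : 0 < (gm (fun _ => 1) t).det) (a : Fin N → Bool → EuclideanSpace ℝ (Fin d))
    (C τ : ℝ) (hC : 0 < C) (hτ : 0 < τ)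
    (ha : ∀ l s, bi (gm (fun _ => 1) t) (a l s) (a l s) ≤ C ^ 2) :
    ∃ σ : Fin N → Bool, ∀ y : EuclideanSpace ℝ (Fin d),
      |∑ l, |⟪a l (σ l), y⟫| - (∑ l, ∑ s, |⟪a l s, y⟫|) / 2| ≤
        9 * (√(Real.log (2 * n) / τ) * ∑ j, |⟪t j, y⟫| +
          C * √(τ * Real.log (4 * N)) * ∑ l, ∑ s, |⟪a l s, y⟫|) ∧
      |∑ l, ⟪a l (σ l), y⟫ - (∑ l, ∑ s, ⟪a l s, y⟫) / 2| ≤
        9 * (√(Real.log (2 * n) / τ) * ∑ j, |⟪t j, y⟫| +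
          C * √(τ * Real.log (4 * N)) * ∑ l, ∑ s, |⟪a l s, y⟫|) := by
  sorry

/-- QN-12 (rational approximation of a measure). -/
theorem approx {d : ℕ} {I : Type} [Fintype I] (v : I → EuclideanSpace ℝ (Fin d))
    (ν : I → ℝ) (h0 : ∀ i, 0 ≤ ν i) (h1 : ∑ i, ν i = 1) (q : ℕ) (hq : 0 < q) (δ : ℝ)
    (hδ : 0 < δ) :
    ∃ (S : ℕ) (L : Fin (2 ^ S * q) → I), ∀ y : EuclideanSpace ℝ (Fin d),
      abs (1 / (2 ^ S * q : ℝ) * (∑ l, |⟪v (L l), y⟫|) - ∑ i, ν i * |⟪v i, y⟫|) ≤ δ * ‖y‖ ∧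
      abs (1 / (2 ^ S * q : ℝ) * (∑ l, ⟪v (L l), y⟫) - ∑ i, ν i * ⟪v i, y⟫) ≤ δ * ‖y‖ := by
  sorry

/-- QN-13 (from convex sets to polytopes, `m ≥ 2d` members). -/
theorem reduction {d : ℕ} (hd : 0 < d) (m : ℕ) (hm : 2 * d ≤ m) (ρ : ℝ) (hρ : 0 < ρ)
    (hpoly : ∀ (n : ℕ) (a : Fin n → EuclideanSpace ℝ (Fin d)) (b : Fin n → ℝ) (D : ℝ),
      (∀ x y : EuclideanSpace ℝ (Fin d), (∀ i, ⟪a i, x⟫ ≤ b i) → (∀ i, ⟪a i, y⟫ ≤ b i) →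
        ‖x - y‖ ≤ D) →
      (∃ x₀ : EuclideanSpace ℝ (Fin d), ∀ i, ⟪a i, x₀⟫ < b i) →
      ∃ s : Finset (Fin n), s.card ≤ m ∧
        ∀ x y : EuclideanSpace ℝ (Fin d), (∀ i ∈ s, ⟪a i, x⟫ ≤ b i) →
          (∀ i ∈ s, ⟪a i, y⟫ ≤ b i) → ‖x - y‖ ≤ ρ * D)
    (F : Finset (Set (EuclideanSpace ℝ (Fin d)))) (hconv : ∀ K ∈ F, Convex ℝ K)
    (hF : ∀ G ⊆ F, G.card ≤ m → 1 ≤ Metric.ediam (⋂ K ∈ G, K)) :
    ENNReal.ofReal (1 / ρ) ≤ Metric.ediam (⋂ K ∈ F, K) := by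
  sorry

end Pool.Agent.Helper4.QN.St
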